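import Pool.Agent.Helper34.SQ.GoalsM

/-!
# Project SQ (MP_bb32d1_al): the packet GSUB
-/

set_option autoImplicit false

open Pool.Agent.Helper19.SQ Pool.Agent.Helper34.SQ

namespace Pool.Agent.Helper35.SQ

noncomputable section

theorem t_gsub (hGADD : S_GADD) : Pool.Agent.Helper34.SQ.S_GSUB := by
  intro N l q hl s hs M _ _ _ _ Θ W hM hW
  have hmk : ∀ m m' : M, m - m' ∈ W →
      (Submodule.Quotient.mk (Θ m) : M ⧸ W) = Submodule.Quotient.mk (Θ m') := by
    intro m m' h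
    rw [Submodule.Quotient.eq, ← map_sub]
    exact hW _ h
  let Θq : (M ⧸ W) →ₗ[ℂ] (M ⧸ W) :=
    { toFun := fun x => Quotient.liftOn' x (fun m => (Submodule.Quotient.mk (Θ m) : M ⧸ W))
        (fun a b hab => hmk a b ((Submodule.quotientRel_def W).mp hab))
      map_add' := by
        intro x y
        obtain ⟨x, rfl⟩ := Submodule.Quotient.mk_surjective W x
        obtain ⟨y, rfl⟩ := Submodule.Quotient.mk_surjective W y
        change (Submodule.Quotient.mk (Θ (x + y)) : M ⧸ W) =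
          Submodule.Quotient.mk (Θ x) + Submodule.Quotient.mk (Θ y)
        rw [map_add, Submodule.Quotient.mk_add]
      map_smul' := by
        intro c x
        obtain ⟨x, rfl⟩ := Submodule.Quotient.mk_surjective W x
        change (Submodule.Quotient.mk (Θ (c • x)) : M ⧸ W) =
          c • Submodule.Quotient.mk (Θ x)
        rw [map_smul, Submodule.Quotient.mk_smul] }
  have hq : ∀ m : M, Θq (Submodule.Quotient.mk m) = Submodule.Quotient.mk (Θ m) := fun m => rfl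
  obtain ⟨h1, h2⟩ := hGADD N l q hl s hs M (M ⧸ W) Θ Θq W.mkQ hM (Submodule.mkQ_surjective W)
    (fun m => rfl)
  have tr : ∀ K : Submodule (A N l q) M, K = W →
      (∃ Θk : K →ₗ[ℂ] K, (∀ m, (Θk m : M) = Θ m) ∧ GM (N := N) (q := q) hl s K Θk ∧
        ∀ μ, dmM N s Θ μ = dmM N s Θk μ + dmM N s Θq μ) →
      ∃ (Θw : W →ₗ[ℂ] W) (Θq : (M ⧸ W) →ₗ[ℂ] (M ⧸ W)), (∀ m, (Θw m : M) = Θ m) ∧
      (∀ m : M, Θq (Submodule.Quotient.mk m) = Submodule.Quotient.mk (Θ m)) ∧
      GM (N := N) (q := q) hl s W Θw ∧ GM (N := N) (q := q) hl s (M ⧸ W) Θq ∧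
      ∀ μ, dmM N s Θ μ = dmM N s Θw μ + dmM N s Θq μ := by
    intro K hK h
    subst hK
    obtain ⟨Θw, h3, h4, h5⟩ := h
    exact ⟨Θw, Θq, h3, hq, h4, h1, h5⟩
  exact tr _ (Submodule.ker_mkQ W) h2

end

end Pool.Agent.Helper35.SQ
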