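import Pool.Agent.Helper34.SQ.GoalsG

/-!
# Project SQ (MP_bb32d1_al): the packet JT
-/

set_option autoImplicit false

namespace Pool.Agent.Helper35.SQ

theorem t_jt : Pool.Agent.Helper34.SQ.S_JT := by
  intro l hl j hj
  have h1 : 1 ≤ j % l := by
    rcases Nat.eq_zero_or_pos (j % l) with h | h
    · exact absurd (Nat.dvd_of_mod_eq_zero h) hj
    · exact h
  have h2 : j % l < l := Nat.mod_lt _ (by omega)
  refine ⟨(j / l) * (l - 1) + (j % l - 1), ?_⟩
  have h3 : ((j / l) * (l - 1) + (j % l - 1)) / (l - 1) = j / l := by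
    rw [Nat.add_comm, Nat.add_mul_div_right _ _ (by omega : 0 < l - 1),
      Nat.div_eq_of_lt (by omega), Nat.zero_add]
  rw [h3]
  have h4 : l * (j / l) + j % l = j := Nat.div_add_mod j l
  obtain ⟨l', rfl⟩ : ∃ l', l = l' + 1 := ⟨l - 1, by omega⟩
  have h5 : (l' + 1) * (j / (l' + 1)) = (j / (l' + 1)) * l' + j / (l' + 1) := by ring
  simp only [Nat.add_sub_cancel]
  omega

end Pool.Agent.Helper35.SQ
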