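import Pool.Agent.Helper19.SQ.GoalsH

/-!
# Project SQ: packets GENV, ZUNIV, LAYA
-/

namespace Pool.Agent.Helper35.SQ

open Pool.Agent.Helper19.SQ

variable {N l : ℕ} {q : ℂ}

theorem smul_tv {H : A N l q →ₐ[ℂ] Mat N (A N l q)} {M : Type} [AddCommGroup M] [Module ℂ M]
    [Module (A N l q) M] [IsScalarTower ℂ (A N l q) M] (a : A N l q) (j p : Fin (N + 1)) (m : M) :
    (a • tv H j m) p = H a p j • m := by
  rw [Ten.smul_apply, Finset.sum_eq_single j]
  · simp [tv]
  · intro i _ hi
    simp [tv, hi]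
  · intro h; exact absurd (Finset.mem_univ _) h

theorem s_genv : S_GENV := by
  intro N l q D hc M _ _ _ _ a m j
  funext p
  have h1 : (∑ i, D.ep a j i • tv D.dl i m) p = ∑ i, (D.ep a j i • tv D.dl i m) p :=
    Finset.sum_apply p _ _
  rw [h1]
  simp only [smul_tv]
  rw [← Finset.sum_smul, hc]
  unfold tv
  by_cases h : j = p
  · subst h; simp
  · rw [if_neg h, if_neg (fun h' => h h'.symm), zero_smul]

theorem algebraMap_smul' {M : Type} [AddCommGroup M] [Module ℂ M]
    [Module (A N l q) M] [IsScalarTower ℂ (A N l q) M] (c : ℂ) (m : M) :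
    algebraMap ℂ (A N l q) c • m = c • m := by
  rw [Algebra.algebraMap_eq_smul_one, smul_assoc, one_smul]

theorem s_zuniv : S_ZUNIV := by
  intro N l _ q hP hfd lam
  refine ⟨?_, ⟨?_, ?_⟩, ?_, ?_⟩
  · let f : A N l q →ₗ[ℂ] Zl q lam := ((Jl q lam).mkQ).restrictScalars ℂ
    exact Module.Finite.of_surjective f (Submodule.mkQ_surjective (Jl q lam))
  · intro i
    change (Submodule.Quotient.mk (gE N l q i • (1 : A N l q)) : A N l q ⧸ Jl q lam) = 0
    rw [Submodule.Quotient.mk_eq_zero, smul_eq_mul, mul_one]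
    exact Submodule.subset_span (Or.inl ⟨i, rfl⟩)
  · intro j
    change (Submodule.Quotient.mk (gK N l q j • (1 : A N l q)) : A N l q ⧸ Jl q lam) =
      Submodule.Quotient.mk (qz q (lam j) • (1 : A N l q))
    rw [Submodule.Quotient.eq, smul_eq_mul, mul_one, ← Algebra.algebraMap_eq_smul_one]
    exact Submodule.subset_span (Or.inr ⟨j, rfl⟩)
  · rw [eq_top_iff]
    intro x _
    obtain ⟨a, rfl⟩ := Submodule.mkQ_surjective (Jl q lam) x
    rw [Submodule.mem_span_singleton]
    refine ⟨a, ?_⟩
    change (Submodule.Quotient.mk (a • (1 : A N l q)) : A N l q ⧸ Jl q lam) =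
      Submodule.Quotient.mk a
    rw [smul_eq_mul, mul_one]
  · intro M _ _ _ _ m hm
    have hker : Jl q lam ≤ LinearMap.ker (LinearMap.toSpanSingleton (A N l q) M m) := by
      unfold Jl
      rw [Submodule.span_le]
      rintro x (⟨i, rfl⟩ | ⟨j, rfl⟩)
      · change gE N l q i • m = 0
        exact hm.1 i
      · change (gK N l q j - algebraMap ℂ (A N l q) (qz q (lam j))) • m = 0
        rw [sub_smul, algebraMap_smul', hm.2 j, sub_self]
    refine ⟨(Jl q lam).liftQ (LinearMap.toSpanSingleton (A N l q) M m) hker, ?_⟩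
    change (LinearMap.toSpanSingleton (A N l q) M m) 1 = m
    rw [LinearMap.toSpanSingleton_apply, one_smul]

theorem qz_add [NeZero l] (hq : q ^ l = 1) (a b : ZMod l) :
    qz q (a + b) = qz q a * qz q b := by
  unfold qz
  rw [ZMod.val_add, ← pow_add]
  exact (pow_eq_pow_mod _ hq).symm

theorem qz_one [NeZero l] (h3 : 3 ≤ l) : qz q (1 : ZMod l) = q := by
  unfold qz
  have : Fact (1 < l) := ⟨by omega⟩
  rw [ZMod.val_one, pow_one]

theorem s_laya : S_LAYA := by
  intro N l _ q D hP M _ _ _ _ lam m hm j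
  have hq : q ^ l = 1 := hP.prim.pow_eq_one
  constructor
  · intro k
    have h1 : gE N l q k • tv D.dl j m =
        if h : (j : ℕ) = k + 1 then tv D.dl ⟨k, by omega⟩ m else 0 := by
      funext p
      rw [smul_tv, D.dl_E]
      unfold dE
      rw [Matrix.of_apply, add_smul]
      have h2 : (if p = j then q ^ pr (p : ℕ) k • gE N l q k else 0) • m = 0 := by
        by_cases hp : p = j
        · rw [if_pos hp, smul_assoc, hm.1 k, smul_zero]
        · rw [if_neg hp, zero_smul]
      rw [h2, zero_add]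
      by_cases hj : (j : ℕ) = k + 1
      · rw [dif_pos hj]
        unfold tv
        by_cases hp : (p : ℕ) = k
        · rw [if_pos ⟨hp, hj⟩, if_pos (Fin.ext hp), one_smul]
        · rw [if_neg (fun h => hp h.1), if_neg (fun h => hp (congrArg Fin.val h)), zero_smul]
      · rw [dif_neg hj, if_neg (fun h => hj h.2), zero_smul]
        rfl
    rw [h1]
    split_ifs with h
    · refine Submodule.subset_span ⟨⟨k, by omega⟩, ?_, rfl⟩
      rw [Fin.lt_def]
      simp only
      omega
    · exact Submodule.zero_mem _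
  · intro i
    funext p
    rw [smul_tv, D.dl_K]
    have h0 : (qz q (addE lam j i) • tv D.dl j m) p = qz q (addE lam j i) • (tv D.dl j m p) := rfl
    rw [h0]
    unfold dK tv
    rw [Matrix.of_apply]
    by_cases hp : p = j
    · subst hp
      rw [if_pos rfl, if_pos rfl, smul_assoc, hm.2 i, smul_smul]
      unfold addE
      by_cases hi : i = p
      · subst hi
        rw [if_pos rfl, if_pos rfl, qz_add hq, qz_one hP.h3, mul_comm]
      · rw [if_neg (fun h => hi (Fin.ext h.symm)), if_neg hi, add_zero, one_mul]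
    · rw [if_neg hp, if_neg hp, zero_smul, smul_zero]

end Pool.Agent.Helper35.SQ
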