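import Pool.Agent.Helper35.SQ.GENV

/-!
# Project SQ: packet SV
-/

namespace Pool.Agent.Helper35.SQ

open Pool.Agent.Helper19.SQ Polynomial

variable {N l : ℕ} {q : ℂ}

theorem eig_aux {M : Type} [AddCommGroup M] [Module ℂ M] (T : M →ₗ[ℂ] M) (W : Submodule ℂ M)
    (hW : ∀ w ∈ W, T w ∈ W) (s : Finset ℂ) :
    ∀ y ∈ W, y ≠ 0 → (aeval T (∏ ζ ∈ s, (X - C ζ))) y = 0 →
      ∃ ζ ∈ s, ∃ y' ∈ W, y' ≠ 0 ∧ T y' = ζ • y' := by
  classical
  induction s using Finset.induction_on with
  | empty =>
    intro y _ hy h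
    exfalso
    apply hy
    simpa using h
  | insert ζ s hζ ih =>
    intro y hyW hy h
    by_cases h1 : T y - ζ • y = 0
    · exact ⟨ζ, Finset.mem_insert_self _ _, y, hyW, hy, sub_eq_zero.1 h1⟩
    · have h2 : T y - ζ • y ∈ W := Submodule.sub_mem _ (hW y hyW) (Submodule.smul_mem _ _ hyW)
      have h3 : (aeval T (∏ ζ ∈ s, (X - C ζ))) (T y - ζ • y) = 0 := by
        rw [Finset.prod_insert hζ, mul_comm, map_mul] at h
        have h4 : (aeval T (X - C ζ : ℂ[X])) y = T y - ζ • y := by
          simp [Algebra.algebraMap_eq_smul_one]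
        rw [Module.End.mul_apply, h4] at h
        exact h
      obtain ⟨ζ', hs, y', h5, h6, h7⟩ := ih _ h2 h1 h3
      exact ⟨ζ', Finset.mem_insert_of_mem hs, y', h5, h6, h7⟩

theorem eig {M : Type} [AddCommGroup M] [Module ℂ M] [NeZero l] (hq : IsPrimitiveRoot q l)
    (T : M →ₗ[ℂ] M) (W : Submodule ℂ M)
    (hW : ∀ w ∈ W, T w ∈ W) (hT : ∀ w, (T ^ l) w = w) (y : M) (hyW : y ∈ W) (hy : y ≠ 0) :
    ∃ c : ZMod l, ∃ y' ∈ W, y' ≠ 0 ∧ T y' = qz q c • y' := by
  have hl : 0 < l := Nat.pos_of_ne_zero (NeZero.ne l)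
  have h1 : (aeval T (∏ ζ ∈ nthRootsFinset l (1 : ℂ), (X - C ζ))) y = 0 := by
    rw [← X_pow_sub_one_eq_prod hl hq]
    simp [hT]
  obtain ⟨ζ, hζ, y', h2, h3, h4⟩ := eig_aux T W hW _ y hyW hy h1
  rw [mem_nthRootsFinset hl] at hζ
  obtain ⟨r, hr, rfl⟩ := hq.eq_pow_of_pow_eq_one hζ
  refine ⟨(r : ZMod l), y', h2, h3, ?_⟩
  unfold qz
  rw [ZMod.val_natCast, Nat.mod_eq_of_lt hr]
  exact h4

theorem smul_comm' {M : Type} [AddCommGroup M] [Module ℂ M]
    [Module (A N l q) M] [IsScalarTower ℂ (A N l q) M] (a : A N l q) (c : ℂ) (m : M) :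
    a • (c • m) = c • (a • m) := (lsm a).map_smul c m

/-- from a vector killed by all `E_k` to a singular vector. -/
theorem sing_of_kill {M : Type} [AddCommGroup M] [Module ℂ M]
    [Module (A N l q) M] [IsScalarTower ℂ (A N l q) M] [NeZero l] (hq : IsPrimitiveRoot q l)
    (hq0 : q ≠ 0) (y : M) (hy : y ≠ 0) (hE : ∀ k, gE N l q k • y = 0) :
    ∃ (lam : Fin (N + 1) → ZMod l) (m : M), m ≠ 0 ∧ Sing q lam m := by
  have hA := glA N l q
  have key : ∀ n : ℕ, ∃ (a : ℕ → ZMod l) (m : M), m ≠ 0 ∧ (∀ k, gE N l q k • m = 0) ∧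
      ∀ i < n, gK N l q i • m = qz q (a i) • m := by
    intro n
    induction n with
    | zero => exact ⟨fun _ => 0, y, hy, hE, fun i hi => absurd hi (Nat.not_lt_zero i)⟩
    | succ n ih =>
      obtain ⟨a, m, hm, h1, h2⟩ := ih
      let W : Submodule ℂ M :=
        { carrier := {w | (∀ k, gE N l q k • w = 0) ∧ ∀ i < n, gK N l q i • w = qz q (a i) • w}
          zero_mem' := ⟨fun k => smul_zero _, fun i _ => by rw [smul_zero, smul_zero]⟩
          add_mem' := fun {x z} hx hz => ⟨fun k => by rw [smul_add, hx.1 k, hz.1 k, add_zero],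
            fun i hi => by rw [smul_add, hx.2 i hi, hz.2 i hi, smul_add]⟩
          smul_mem' := fun c x hx => ⟨fun k => by rw [smul_comm', hx.1 k, smul_zero],
            fun i hi => by rw [smul_comm', hx.2 i hi, smul_comm c]⟩ }
      have hW : ∀ w ∈ W, lsm (gK N l q n) w ∈ W := by
        intro w hw
        refine ⟨fun k => ?_, fun i hi => ?_⟩
        · rw [lsm_apply]
          have h3 := hA.KE n k
          have h4 : gK N l q n • (gE N l q k • w) =
              q ^ pr n k • (gE N l q k • (gK N l q n • w)) := by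
            rw [← mul_smul, h3, smul_assoc, mul_smul]
          rw [hw.1 k, smul_zero] at h4
          have h5 : q ^ pr n k ≠ 0 := zpow_ne_zero _ hq0
          exact (smul_eq_zero_iff_right h5).1 h4.symm
        · rw [lsm_apply, ← mul_smul, hA.K_comm, mul_smul, hw.2 i hi, smul_comm']
      have hT : ∀ w, ((lsm (gK N l q n) : M →ₗ[ℂ] M) ^ l) w = w := by
        intro w
        have h6 : ∀ r : ℕ, ((lsm (gK N l q n) : M →ₗ[ℂ] M) ^ r) w = gK N l q n ^ r • w := by
          intro r
          induction r with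
          | zero => simp
          | succ r ihr =>
            rw [pow_succ', Module.End.mul_apply, ihr, lsm_apply, ← mul_smul, ← pow_succ']
        rw [h6, hA.K_pow, one_smul]
      obtain ⟨c, m', h7, h8, h9⟩ := eig hq (lsm (gK N l q n)) W hW hT m ⟨h1, h2⟩ hm
      refine ⟨fun i => if i = n then c else a i, m', h8, h7.1, fun i hi => ?_⟩
      beta_reduce
      by_cases hin : i = n
      · subst hin
        rw [if_pos rfl]
        exact h9
      · rw [if_neg hin]
        exact h7.2 i (by omega)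
  obtain ⟨a, m, hm, h1, h2⟩ := key (N + 1)
  exact ⟨fun j => a j, m, hm, h1, fun j => h2 j j.2⟩

theorem s_sv (hSPAN : S_SPAN) (hMONW : S_MONW) : S_SV := by
  intro N l _ q hP M _ _ _ _ hx
  obtain ⟨x, hx⟩ := hx
  have hl : 0 < l := by have := hP.h3; omega
  have hq0 : q ≠ 0 := hP.prim.ne_zero (by omega)
  have hq2 : q ^ 2 ≠ 1 := by
    intro h
    have := hP.prim.dvd_of_pow_eq_one 2 h
    have := Nat.le_of_dvd (by norm_num) this
    have := hP.h3
    omega
  have hqm : q ^ 2 ≠ -1 := by
    intro h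
    have h4 : q ^ 4 = 1 := by
      have : q ^ 4 = (q ^ 2) ^ 2 := by ring
      rw [this, h]; norm_num
    have h5 := hP.prim.dvd_of_pow_eq_one 4 h4
    have h6 := Nat.le_of_dvd (by norm_num) h5
    have h7 := hP.h3
    have h8 := hP.odd
    interval_cases l
    · omega
    · exact absurd h8 (by decide)
  have hA := glA N l q
  -- exponent 0
  have h0ex : IsEx N l (fun _ _ => 0) := fun i j => ⟨fun _ => hl, fun _ => rfl⟩
  have h0 : mon N q (gE N l q) (fun _ _ => 0) = 1 := by
    unfold mon rowM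
    simp
  classical
  let s : Finset (EX N l) := Finset.univ.filter (fun b => mon N q (gE N l q) b.1 • x ≠ 0)
  have hs : s.Nonempty := by
    refine ⟨⟨_, h0ex⟩, ?_⟩
    rw [Finset.mem_filter]
    refine ⟨Finset.mem_univ _, ?_⟩
    rw [h0, one_smul]
    exact hx
  obtain ⟨b, hb, hmax⟩ := Finset.exists_max_image s (fun b => ht N b.1) hs
  rw [Finset.mem_filter] at hb
  have hkill : ∀ k, gE N l q k • (mon N q (gE N l q) b.1 • x) = 0 := by
    intro k
    have hspan : ∀ z ∈ Submodule.span ℂ {x | ∃ w : List ℕ, w.length = ht N b.1 ∧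
        (∀ k ∈ w, k < N) ∧ x = (w.map (gE N l q)).prod}, (gE N l q k * z) • x = 0 := by
      intro z hz
      induction hz using Submodule.span_induction with
      | mem z hz =>
        obtain ⟨w, hw, -, rfl⟩ := hz
        have h1 := hSPAN (A N l q) N l q (gE N l q) hl hq0 hq2 hqm hA.sE hA.E_out hA.pE (k :: w)
        rw [List.map_cons, List.prod_cons] at h1
        have h2 : ∀ z ∈ Submodule.span ℂ {x | ∃ b, IsEx N l b ∧ ht N b = (k :: w).length ∧
            x = mon N q (gE N l q) b}, z • x = 0 := by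
          intro z hz
          induction hz using Submodule.span_induction with
          | mem z hz =>
            obtain ⟨b', hb', hht, rfl⟩ := hz
            by_contra hne
            have h3 := hmax ⟨b', hb'⟩ (Finset.mem_filter.2 ⟨Finset.mem_univ _, hne⟩)
            simp only at h3
            rw [hht, List.length_cons, hw] at h3
            omega
          | zero => exact zero_smul _ _
          | add u v _ _ hu hv => rw [add_smul, hu, hv, add_zero]
          | smul c u _ hu => rw [smul_assoc, hu, smul_zero]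
        exact h2 _ h1
      | zero => rw [mul_zero, zero_smul]
      | add u v _ _ hu hv => rw [mul_add, add_smul, hu, hv, add_zero]
      | smul c u _ hu => rw [mul_smul_comm, smul_assoc, hu, smul_zero]
    rw [← mul_smul]
    exact hspan _ (hMONW (A N l q) N q (gE N l q) b.1 (fun i j h => (b.2 i j).2 h))
  exact sing_of_kill hP.prim hq0 _ hb.2 hkill

end Pool.Agent.Helper35.SQ
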