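import Pool.Agent.Helper19.SQ.GoalsQ2

/-!
# Project SQ (MP_bb32d1_al): the packet SE
-/

set_option autoImplicit false

open Pool.Agent.Helper19.SQ

namespace Pool.Agent.Helper35.SQ

noncomputable section

/-- the entry of `S` as a function of natural numbers -/
def sN (q : ℂ) (p j i m : ℕ) : ℂ :=
  if i = m then
    (if p = j then (if p = i then q else if i < p then (q - q⁻¹) * q ^ (2 * (p - i)) else 0) else 0)
  else (if p = m ∧ j = i then 1 else 0)

theorem Smat_apply (N : ℕ) (q : ℂ) (p j i m : Fin (N + 1)) :
    Smat N q (p, j) (i, m) = sN q p j i m := by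
  simp only [Smat, sN, Matrix.of_apply, Fin.ext_iff, Fin.lt_def]

theorem keyE (q : ℂ) (hq : q ≠ 0) (k p j i m : ℕ) :
    (if i = k then sN q p j (k + 1) m * (-q) else 0) +
      (if m = k + 1 then sN q p j i k * q ^ (-pr i k) else 0) =
    (if p = k then sN q (k + 1) j i m else 0) +
      (if j = k + 1 then (-q * q ^ (pr p k)) * sN q p k i m else 0) := by
  by_cases hi : i = k
  · subst hi
    by_cases hm : m = i + 1
    · subst hm
      rw [if_pos rfl, if_pos rfl]
      have e1 : sN q (i + 1) j i (i + 1) = if j = i then 1 else 0 := by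
        simp [sN]
      have e2 : sN q p i i (i + 1) = if p = i + 1 then 1 else 0 := by
        simp [sN]
      rw [e1, e2]
      by_cases hpj : p = j
      · subst hpj
        rcases lt_trichotomy p i with h | h | h
        · have a1 : ¬ i < p := by omega
          have a2 : ¬ i + 1 < p := by omega
          have a3 : p ≠ i := by omega
          have a4 : p ≠ i + 1 := by omega
          simp [sN, a1, a2, a3, a4]
        · subst h
          have a2 : ¬ p + 1 < p := by omega
          simp [sN, pr, a2, hq]
        · by_cases h' : p = i + 1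
          · subst h'
            simp [sN, pr]
            field_simp
            ring
          · have a1 : i + 1 < p := by omega
            have a3 : p ≠ i := by omega
            obtain ⟨d, rfl⟩ : ∃ d, p = i + 1 + d := ⟨p - (i + 1), by omega⟩
            have a4 : i + 1 + d - i = d + 1 := by omega
            have a5 : i + 1 + d - (i + 1) = d := by omega
            simp only [sN, pr, a4, a5, a1, a3, h, h', if_true, if_false]
            rw [show 2 * (d + 1) = 2 * d + 2 by ring, pow_add, zpow_neg, zpow_one]
            field_simp
            ring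
      · have a1 : sN q p j (i + 1) (i + 1) = 0 := by simp [sN, hpj]
        have a2 : sN q p j i i = 0 := by simp [sN, hpj]
        rw [a1, a2, zero_mul, zero_mul]
        by_cases b1 : p = i
        · have b2 : p ≠ i + 1 := by omega
          have b3 : j ≠ i := by omega
          simp [b2, b3]
        · by_cases b2 : p = i + 1
          · have b3 : j ≠ i + 1 := by omega
            simp [b1, b3]
          · simp [b1, b2]
    · rw [if_pos rfl, if_neg hm, add_zero]
      have e1 : sN q p j (i + 1) m = if p = m ∧ j = i + 1 then 1 else 0 := by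
        simp [sN, Ne.symm hm]
      rw [e1]
      by_cases hmi : m = i
      · subst hmi
        have e2 : sN q (m + 1) j m m = if j = m + 1 then (q - q⁻¹) * q ^ 2 else 0 := by
          by_cases h : j = m + 1
          · subst h
            simp [sN]
          · have h' : m + 1 ≠ j := by omega
            simp [sN, h, h']
        have e3 : sN q p m m m = if p = m then q else 0 := by
          by_cases h : p = m
          · simp [sN, h]
          · simp [sN, h]
        rw [e2, e3]
        by_cases b1 : p = m
        · by_cases b2 : j = m + 1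
          · subst b1
            simp [b2, pr]
            field_simp
            ring
          · simp [b2]
        · simp [b1]
      · have e2 : sN q (i + 1) j i m = 0 := by
          have h1 : i ≠ m := Ne.symm hmi
          have h2 : i + 1 ≠ m := Ne.symm hm
          simp [sN, h1, h2]
        have e3 : sN q p i i m = if p = m then 1 else 0 := by
          simp [sN, Ne.symm hmi]
        rw [e2, e3]
        by_cases b1 : p = m
        · subst b1
          by_cases b2 : j = i + 1
          · simp [b2, pr, hmi, hm]
          · simp [b2]
        · simp [b1]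
  · rw [if_neg hi, zero_add]
    by_cases hm : m = k + 1
    · subst hm
      rw [if_pos rfl]
      have e1 : sN q p j i k = if p = k ∧ j = i then 1 else 0 := by
        simp [sN, hi]
      rw [e1]
      by_cases hik : i = k + 1
      · subst hik
        have e2 : sN q (k + 1) j (k + 1) (k + 1) = if j = k + 1 then q else 0 := by
          by_cases h : j = k + 1
          · simp [sN, h]
          · have h' : k + 1 ≠ j := by omega
            simp [sN, h, h']
        have e3 : sN q p k (k + 1) (k + 1) = 0 := by
          by_cases h : p = k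
          · subst h
            have h1 : ¬ p + 1 < p := by omega
            simp [sN, h1]
          · simp [sN, h]
        rw [e2, e3]
        by_cases b1 : p = k
        · by_cases b2 : j = k + 1
          · simp [b1, b2, pr]
          · simp [b2]
        · simp [b1]
      · have e2 : sN q (k + 1) j i (k + 1) = if j = i then 1 else 0 := by
          simp [sN, hik]
        have e3 : sN q p k i (k + 1) = 0 := by
          have h1 : k ≠ i := Ne.symm hi
          simp [sN, hik, h1]
        rw [e2, e3]
        by_cases b1 : p = k
        · by_cases b2 : j = i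
          · simp [b1, b2, pr, hi, hik]
          · simp [b2]
        · simp [b1]
    · rw [if_neg hm]
      by_cases him : i = m
      · subst him
        by_cases b1 : p = k
        · by_cases b2 : j = k + 1
          · subst b1 b2
            rw [if_pos rfl, if_pos rfl]
            have h1 : p ≠ i := Ne.symm hi
            have h2 : p + 1 ≠ i := Ne.symm hm
            rcases lt_or_ge i p with h | h
            · obtain ⟨d, rfl⟩ : ∃ d, p = i + d := ⟨p - i, by omega⟩
              have a4 : i + d + 1 - i = d + 1 := by omega
              have a5 : i + d - i = d := by omega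
              have a6 : i < i + d + 1 := by omega
              simp only [sN, pr, a4, a5, a6, h, h1, h2, if_true, if_false]
              rw [show 2 * (d + 1) = 2 * d + 2 by ring, pow_add, zpow_one]
              ring
            · have a5 : ¬ i < p := by omega
              have a6 : ¬ i < p + 1 := by omega
              simp [sN, h1, h2, a5, a6]
          · have e2 : sN q (k + 1) j i i = 0 := by
              have h' : k + 1 ≠ j := by omega
              simp [sN, h']
            simp [b2, e2]
        · have e2 : sN q p k i i = 0 := by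
            simp [sN, b1]
          simp [b1, e2]
      · have e2 : sN q (k + 1) j i m = 0 := by
          have h1 : k + 1 ≠ m := Ne.symm hm
          simp [sN, him, h1]
        have e3 : sN q p k i m = 0 := by
          have h1 : k ≠ i := Ne.symm hi
          simp [sN, him, h1]
        rw [e2, e3]
        simp

theorem sum_one_r {ι : Type*} [Fintype ι] [DecidableEq ι] (f c : ι → ℂ) (P : ι → Prop)
    [DecidablePred P] (z0 : ι) (Q : Prop) [Decidable Q] (h : ∀ z, P z ↔ z = z0 ∧ Q) :
    ∑ z, f z * (if P z then c z else 0) = if Q then f z0 * c z0 else 0 := by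
  by_cases hQ : Q
  · rw [if_pos hQ, Finset.sum_eq_single z0]
    · rw [if_pos ((h z0).mpr ⟨rfl, hQ⟩)]
    · intro z _ hz
      rw [if_neg (fun hP => hz ((h z).mp hP).1), mul_zero]
    · intro hh
      exact absurd (Finset.mem_univ _) hh
  · rw [if_neg hQ]
    refine Finset.sum_eq_zero fun z _ => ?_
    rw [if_neg (fun hP => hQ ((h z).mp hP).2), mul_zero]

theorem sum_one_l {ι : Type*} [Fintype ι] [DecidableEq ι] (f c : ι → ℂ) (P : ι → Prop)
    [DecidablePred P] (z0 : ι) (Q : Prop) [Decidable Q] (h : ∀ z, P z ↔ z = z0 ∧ Q) :
    ∑ z, (if P z then c z else 0) * f z = if Q then c z0 * f z0 else 0 := by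
  have e := sum_one_r f c P z0 Q h
  simp only [mul_comm (f _)] at e
  exact e

theorem sSE : S_SE := by
  intro N q hq k
  by_cases hk : k + 1 ≤ N
  · ext ⟨p, j⟩ ⟨i, m⟩
    have e := keyE q hq k p j i m
    rw [Matrix.mul_apply, Matrix.mul_apply]
    simp only [M1E, M2E, Matrix.of_apply, mul_add, add_mul, Finset.sum_add_distrib]
    have k0 : k < N + 1 := by omega
    have k1 : k + 1 < N + 1 := by omega
    rw [sum_one_r (Smat N q (p, j)) (fun _ => -q) _ (⟨k + 1, k1⟩, m) ((i : ℕ) = k) ?_,
      sum_one_r (Smat N q (p, j)) (fun z => q ^ (-pr z.1 k)) _ (i, ⟨k, k0⟩) ((m : ℕ) = k + 1) ?_,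
      sum_one_l (fun z => Smat N q z (i, m)) (fun _ => 1) _ (⟨k + 1, k1⟩, j) ((p : ℕ) = k) ?_,
      sum_one_l (fun z => Smat N q z (i, m)) (fun _ => -q * q ^ (pr p k)) _ (p, ⟨k, k0⟩)
        ((j : ℕ) = k + 1) ?_]
    · simp only [Smat_apply, one_mul]
      exact e
    · rintro ⟨a, b⟩
      simp only [Prod.mk.injEq, Fin.ext_iff]
      constructor
      · rintro ⟨h1, h2, h3⟩
        exact ⟨⟨h1.symm, h3⟩, h2⟩
      · rintro ⟨⟨h1, h3⟩, h2⟩
        exact ⟨h1.symm, h2, h3⟩
    · rintro ⟨a, b⟩
      simp only [Prod.mk.injEq, Fin.ext_iff]
      constructor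
      · rintro ⟨⟨h1, h2⟩, h3⟩
        exact ⟨⟨h2, h3.symm⟩, h1⟩
      · rintro ⟨⟨h1, h3⟩, h2⟩
        exact ⟨⟨h2, h1⟩, h3.symm⟩
    · rintro ⟨a, b⟩
      simp only [Prod.mk.injEq, Fin.ext_iff]
      constructor
      · rintro ⟨h1, h2, h3⟩
        exact ⟨⟨h1, h2⟩, h3⟩
      · rintro ⟨⟨h1, h3⟩, h2⟩
        exact ⟨h1, h3, h2⟩
    · rintro ⟨a, b⟩
      simp only [Prod.mk.injEq, Fin.ext_iff]
      constructor
      · rintro ⟨⟨h1, h2⟩, h3⟩
        exact ⟨⟨h1, h3⟩, h2⟩
      · rintro ⟨⟨h1, h3⟩, h2⟩
        exact ⟨⟨h1, h2⟩, h3⟩
  · have z1 : M1E N q k = 0 := by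
      ext ⟨a, b⟩ ⟨i, m⟩
      have h1 : (a : ℕ) ≠ k + 1 := by
        have := a.2
        omega
      have h2 : (m : ℕ) ≠ k + 1 := by
        have := m.2
        omega
      simp [M1E, h1, h2]
    have z2 : M2E N q k = 0 := by
      ext ⟨a, b⟩ ⟨i, m⟩
      have h1 : (i : ℕ) ≠ k + 1 := by
        have := i.2
        omega
      have h2 : (b : ℕ) ≠ k + 1 := by
        have := b.2
        omega
      simp [M2E, h1, h2]
    rw [z1, z2, mul_zero, zero_mul]

end

end Pool.Agent.Helper35.SQ
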