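import Pool.Agent.Helper19.SQ.GoalsQ2

/-!
# Project SQ (MP_bb32d1_al): the packet UV
-/

set_option autoImplicit false

open Pool.Agent.Helper19.SQ Matrix

namespace Pool.Agent.Helper35.SQ

noncomputable section

theorem sc_mul (A : Type) [Ring A] [Algebra ℂ A] {κ : Type} [Fintype κ] (S T : Matrix κ κ ℂ) :
    sc A S * sc A T = sc A (S * T) := by
  rw [sc, sc, sc, Matrix.map_mul]

theorem sc_one (A : Type) [Ring A] [Algebra ℂ A] {κ : Type} [Fintype κ] [DecidableEq κ] :
    sc A (1 : Matrix κ κ ℂ) = 1 := by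
  rw [sc, Matrix.map_one _ (map_zero _) (map_one _)]

theorem sUD (hCUP1 : S_CUP1) : S_UD := by
  intro N l q hP D a
  funext x
  obtain ⟨p, j⟩ := x
  have e0 : (D2 D.dl D.ep a *ᵥ uvec N l q) (p, j) =
      ∑ y : Fin (N + 1) × Fin (N + 1), D.ep (D.dl a p y.1) j y.2 * uvec N l q y := rfl
  rw [e0, Fintype.sum_prod_type]
  have e1 : ∀ k : Fin (N + 1), ∑ i, D.ep (D.dl a p k) j i * uvec N l q (k, i) =
      (-(q - q⁻¹)) • ((q ^ (2 * (k : ℕ))) • D.ep (D.dl a p k) j k) := by
    intro k
    rw [Finset.sum_eq_single k]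
    · simp only [uvec, if_true]
      rw [mul_smul_comm, mul_one, mul_smul]
    · intro i _ hi
      simp only [uvec]
      rw [if_neg (Ne.symm hi), mul_zero]
    · intro h
      exact absurd (Finset.mem_univ _) h
  simp only [e1]
  rw [← Finset.smul_sum, hCUP1 N l q hP D a p j]
  by_cases h : j = p
  · subst h
    simp only [uvec, if_true]
    rw [smul_mul_assoc, one_mul, mul_smul]
  · rw [if_neg h, smul_zero]
    simp only [uvec]
    rw [if_neg (Ne.symm h), zero_mul]

theorem X1_comm (N l : ℕ) (q : ℂ) (D : Dl N l q) (X : Mat N (A N l q))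
    (hX : ∀ a, X * D.dl a = D.dl a * X) (a : A N l q) :
    X1 X * D1 D.dl D.ep a = D1 D.dl D.ep a * X1 X := by
  ext ⟨j, p⟩ ⟨i, k⟩
  rw [Matrix.mul_apply, Matrix.mul_apply, Fintype.sum_prod_type, Fintype.sum_prod_type]
  have e1 : ∑ j', ∑ p', X1 X (j, p) (j', p') * D1 D.dl D.ep a (j', p') (i, k) =
      (X * D.dl (D.ep a j i)) p k := by
    rw [Finset.sum_eq_single j]
    · rw [Matrix.mul_apply]
      refine Finset.sum_congr rfl fun p' _ => ?_
      simp only [X1, D1, Matrix.of_apply, if_true]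
    · intro j' _ hj'
      refine Finset.sum_eq_zero fun p' _ => ?_
      simp only [X1, Matrix.of_apply]
      rw [if_neg (Ne.symm hj'), zero_mul]
    · intro h
      exact absurd (Finset.mem_univ _) h
  have e2 : ∑ i', ∑ k', D1 D.dl D.ep a (j, p) (i', k') * X1 X (i', k') (i, k) =
      (D.dl (D.ep a j i) * X) p k := by
    rw [Finset.sum_eq_single i]
    · rw [Matrix.mul_apply]
      refine Finset.sum_congr rfl fun p' _ => ?_
      simp only [X1, D1, Matrix.of_apply, if_true]
    · intro j' _ hj'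
      refine Finset.sum_eq_zero fun p' _ => ?_
      simp only [X1, Matrix.of_apply]
      rw [if_neg hj', mul_zero]
    · intro h
      exact absurd (Finset.mem_univ _) h
  rw [e1, e2, hX]

theorem cap_D1 (hCAP1 : S_CAP1) (N l : ℕ) (q : ℂ) (hP : Par N l q) (D : Dl N l q) (a : A N l q) :
    capv N l q ᵥ* D1 D.dl D.ep a = a • capv N l q := by
  funext x
  obtain ⟨i, k⟩ := x
  have e0 : (capv N l q ᵥ* D1 D.dl D.ep a) (i, k) =
      ∑ y : Fin (N + 1) × Fin (N + 1), capv N l q y * D.dl (D.ep a y.1 i) y.2 k := rfl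
  rw [e0, Fintype.sum_prod_type]
  have e1 : ∀ j : Fin (N + 1), ∑ p, capv N l q (j, p) * D.dl (D.ep a j i) p k =
      (q⁻¹ ^ (2 * (j : ℕ))) • D.dl (D.ep a j i) j k := by
    intro j
    rw [Finset.sum_eq_single j]
    · simp only [capv, if_true]
      rw [smul_mul_assoc, one_mul]
    · intro p _ hp
      simp only [capv]
      rw [if_neg (Ne.symm hp), zero_mul]
    · intro h
      exact absurd (Finset.mem_univ _) h
  simp only [e1]
  rw [hCAP1 N l q hP D a i k, Pi.smul_apply, smul_eq_mul]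
  simp only [capv]
  by_cases h : k = i
  · subst h
    rw [if_pos rfl, if_pos rfl, mul_smul_comm, mul_one]
  · rw [if_neg h, if_neg (Ne.symm h), mul_zero]

theorem sVD (hCAP1 : S_CAP1) (hSD : S_SD) (hSM : S_SM) (hXC : S_XC) : S_VD := by
  intro N l q hP D a
  have hq : q ≠ 0 := by
    intro h0
    have h1 := hP.prim.pow_eq_one
    have h2 := hP.h3
    rw [h0, zero_pow (by omega)] at h1
    exact zero_ne_one h1
  obtain ⟨hST, hTS, -, -⟩ := hSM N q hq
  have hSD' := hSD N l q hP D a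
  have hX := X1_comm N l q D (Xm N l q) (fun b => hXC N l q hP D b) a
  have hT : sc (A N l q) (Tmat N q) * D2 D.dl D.ep a = D1 D.dl D.ep a * sc (A N l q) (Tmat N q) := by
    have s1 : sc (A N l q) (Tmat N q) * sc (A N l q) (Smat N q) = 1 := by
      rw [sc_mul, hTS, sc_one]
    have s2 : sc (A N l q) (Smat N q) * sc (A N l q) (Tmat N q) = 1 := by
      rw [sc_mul, hST, sc_one]
    calc sc (A N l q) (Tmat N q) * D2 D.dl D.ep a
        = sc (A N l q) (Tmat N q) * (D2 D.dl D.ep a * sc (A N l q) (Smat N q)) *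
            sc (A N l q) (Tmat N q) := by
          rw [Matrix.mul_assoc, Matrix.mul_assoc, s2, Matrix.mul_one]
      _ = sc (A N l q) (Tmat N q) * (sc (A N l q) (Smat N q) * D1 D.dl D.ep a) *
            sc (A N l q) (Tmat N q) := by rw [hSD']
      _ = _ := by rw [← Matrix.mul_assoc, s1, Matrix.one_mul]
  have e1 : vvec N l q ᵥ* D2 D.dl D.ep a = a • vvec N l q := by
    rw [vvec, Matrix.vecMul_vecMul, Matrix.mul_assoc, hT, ← Matrix.mul_assoc, hX,
      Matrix.mul_assoc, ← Matrix.vecMul_vecMul, cap_D1 hCAP1 N l q hP D a, Matrix.smul_vecMul]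
  rw [e1]
  rfl

end

end Pool.Agent.Helper35.SQ
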