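import Pool.Agent.Helper84.SQ.GoalsD

/-!
# Rounding of a real point (RRD)
-/

namespace Pool.Agent.Helper35.SQ

open Pool.Agent.Helper84.SQ

theorem rrd (hRnd : RndStmt) (hTur : TurStmt) : RrdStmt := by
  intro m n W w q h v t hW hq x hx hxv
  have hA := hTur m n (m + 1) W (Fin.cons (Pi.single v 1) W : Fin (m + 1) → Fin n → ℤ) hW (by
    intro i
    refine Fin.cases ?_ (fun i => ?_) i
    · exact Or.inr (Or.inr (Or.inl ⟨v, rfl⟩))
    · exact Or.inl ⟨i, rfl⟩)
  obtain ⟨y, hy, hb, hc⟩ := hRnd (m + 1) n _ (Fin.cons t w : Fin (m + 1) → ℤ)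
    (fun j => sl (q j) (h j) (x j)) x 0 hA le_rfl (by simp) (by
      intro i
      refine Fin.cases ?_ (fun i => ?_) i
      · simp only [Fin.cons_zero, add_zero]
        have h1 : ∑ j, (((Pi.single v 1 : Fin n → ℤ) j : ℤ) : ℝ) * x j = x v := by
          rw [Finset.sum_eq_single v]
          · simp
          · intro j _ hj
            simp [hj]
          · simp
        rw [h1, hxv]
      · simp only [Fin.cons_succ, add_zero]
        exact hx i)
  have hyv : y v = t := by
    have h1 := hy 0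
    simp only [Fin.cons_zero] at h1
    have h2 : ∑ j, (Pi.single v 1 : Fin n → ℤ) j * y j = y v := by
      rw [Finset.sum_eq_single v]
      · simp
      · intro j _ hj
        simp [hj]
      · simp
    rw [h2] at h1
    have h3 := (hb v).1
    rw [hxv, Int.floor_intCast] at h3
    exact le_antisymm h1 h3
  refine ⟨y, fun i => ?_, hyv, fun j => ?_, ?_⟩
  · have := hy i.succ
    simpa only [Fin.cons_succ] using this
  · obtain ⟨h1, h2⟩ := hb j
    have h1' : ((⌊x j⌋ : ℤ) : ℝ) ≤ y j := by exact_mod_cast h1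
    have h2' : (y j : ℝ) ≤ ⌊x j⌋ + 1 := by exact_mod_cast h2
    have h3 := Int.floor_le (x j)
    have h4 := Int.lt_floor_add_one (x j)
    rw [abs_le]
    constructor <;> linarith
  · simp only [mul_zero, zero_mul, add_zero] at hc
    unfold gR
    have key : ∀ j, (q j : ℝ) * (y j : ℝ) ^ 2 + h j * y j ≤
        ((q j : ℝ) * x j ^ 2 + h j * x j) + q j +
          (sl (q j) (h j) (x j) * y j - sl (q j) (h j) (x j) * x j) := by
      intro j
      obtain ⟨h1, h2⟩ := hb j
      have h3 := Int.floor_le (x j)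
      have h4 := Int.lt_floor_add_one (x j)
      have h5 : ((y j : ℝ) - ⌊x j⌋) * ((y j : ℝ) - ⌊x j⌋ - 1) = 0 := by
        rcases eq_or_lt_of_le h1 with h | h
        · rw [← h]; simp
        · have h6 : y j = ⌊x j⌋ + 1 := by omega
          rw [h6]; push_cast; ring
      have hq' : (0 : ℝ) ≤ q j := by exact_mod_cast hq j
      unfold sl
      have h7 : (q j : ℝ) * (((y j : ℝ) - ⌊x j⌋) * ((y j : ℝ) - ⌊x j⌋ - 1)) = 0 := by
        rw [h5, mul_zero]
      set θ := x j - ⌊x j⌋ with hθ
      have h8 : (0 : ℝ) ≤ q j * (1 - θ * (1 - θ)) := by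
        apply mul_nonneg hq'
        nlinarith
      have h9 : x j = ⌊x j⌋ + θ := by rw [hθ]; ring
      generalize (⌊x j⌋ : ℤ) = k at *
      rw [h9]
      nlinarith [h7, h8]
    calc ∑ j, ((q j : ℝ) * (y j : ℝ) ^ 2 + h j * y j)
        ≤ ∑ j, (((q j : ℝ) * x j ^ 2 + h j * x j) + q j +
          (sl (q j) (h j) (x j) * y j - sl (q j) (h j) (x j) * x j)) :=
          Finset.sum_le_sum fun j _ => key j
      _ = ∑ j, ((q j : ℝ) * x j ^ 2 + h j * x j) + ∑ j, (q j : ℝ) +
          (∑ j, sl (q j) (h j) (x j) * y j - ∑ j, sl (q j) (h j) (x j) * x j) := by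
          rw [Finset.sum_add_distrib, Finset.sum_add_distrib, Finset.sum_sub_distrib]
      _ ≤ _ := by linarith

end Pool.Agent.Helper35.SQ
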