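import Pool.Agent.Helper84.SQ.GoalsD

/-!
# A very negative value in a slice implies unboundedness (UNA)
-/

namespace Pool.Agent.Helper35.SQ

open Pool.Agent.Helper84.SQ

theorem una (hKkf : KkfStmt) (hTai : TaiStmt) (hQud : QudStmt) (hRrd : RrdStmt) : UnaStmt := by
  rintro m n s W w q h v σ κ hW hS hqv hσ hκ hκs hNB ⟨x, hx, hxv, hlt⟩ M
  have hpow : ∀ a b : ℕ, a ≤ b → (2 : ℤ) ^ (a * eE s) ≤ 2 ^ (b * eE s) := fun a b hab =>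
    pow_le_pow_right₀ (by norm_num) (Nat.mul_le_mul_right _ hab)
  have hxR : (fun j => (x j : ℝ)) ∈ FeaR W w := by
    intro i
    have h0 := hx i
    show ∑ j, (W i j : ℝ) * (x j : ℝ) ≤ w i
    exact_mod_cast h0
  have hσ2 : (σ : ℝ) ^ 2 = 1 := by
    rcases hσ with h | h <;> rw [h] <;> norm_num
  obtain ⟨D, X, Y, hD1, hD, hX, hY, hXv, hYv, hpt, hmin⟩ :=
    hKkf m n s W w q h v σ (2 ^ (6 * eE s)) hS hqv hσ
      (by simpa using hpow 1 6 (by norm_num)) hNB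
      ⟨_, hxR, by show ((x v : ℤ) : ℝ) = _; rw [hxv]; push_cast; ring⟩
  have hlt2 : gR q h (pt D X Y (2 ^ (6 * eE s))) - κ * (((2 : ℤ) ^ (6 * eE s) : ℤ) : ℝ) ^ 2 <
      -2 ^ (3 * eE s) := by
    refine lt_of_le_of_lt ?_ hlt
    have h1 := hmin _ hxR (by show ((x v : ℤ) : ℝ) = _; rw [hxv]; push_cast; ring)
    have h2 : ((x v : ℤ) : ℝ) ^ 2 = (((2 : ℤ) ^ (6 * eE s) : ℤ) : ℝ) ^ 2 := by
      rw [hxv]
      push_cast
      rw [mul_pow, hσ2, one_mul]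
    rw [h2]
    linarith
  have hD0 : (0 : ℝ) < D := by exact_mod_cast hD1
  -- the choice of the parameter
  obtain ⟨τ, hτ1, hτ2⟩ : ∃ τ : ℤ, 2 ^ (6 * eE s) ≤ τ ∧
      (2 : ℝ) ^ (3 * eE s) + 2 ^ (2 * eE s) * (∑ j, (q j : ℝ) - M) < τ := by
    obtain ⟨k, hk⟩ := exists_int_gt
      ((2 : ℝ) ^ (3 * eE s) + 2 ^ (2 * eE s) * (∑ j, (q j : ℝ) - M))
    refine ⟨max (2 ^ (6 * eE s)) k, le_max_left _ _, lt_of_lt_of_le hk ?_⟩
    exact_mod_cast le_max_right _ _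
  have h5 : (2 : ℤ) ^ (5 * eE s) ≤ 2 ^ (6 * eE s) := hpow 5 6 (by norm_num)
  have h2 : (2 : ℤ) ^ (2 * eE s) ≤ 2 ^ (6 * eE s) := hpow 2 6 (by norm_num)
  have hF := hTai m n s W w q h D X Y (2 ^ (6 * eE s)) τ hS hD1 hD hX hY h2 (h2.trans hτ1) hpt
  have hQ := hQud m n s W w q h κ D X Y (2 ^ (6 * eE s)) τ hS hκ hκs hD1 hD hX hY h5
    (h5.trans hτ1) hlt2
  have hv : pt D X Y τ v = ((σ * τ : ℤ) : ℝ) := by
    unfold pt
    rw [hXv, hYv]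
    push_cast
    field_simp
    ring
  obtain ⟨y, hy, hyv, -, hgy⟩ := hRrd m n W w q h v (σ * τ) hW hS.q0 _ hF hv
  refine ⟨y, hy, ?_⟩
  have h7 : ((y v : ℤ) : ℝ) ^ 2 = (τ : ℝ) ^ 2 := by
    rw [hyv]
    push_cast
    rw [mul_pow, hσ2, one_mul]
  rw [h7]
  have h8 : ((2 : ℝ) ^ (3 * eE s) - τ) / 2 ^ (2 * eE s) < M - ∑ j, (q j : ℝ) := by
    rw [div_lt_iff₀ (by positivity)]
    nlinarith
  linarith

end Pool.Agent.Helper35.SQ
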